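import Pool.Agent.P.MP_639dfe_co.Growth

namespace Pool.Agent.Results.MP_639dfe_co.SixGrowth

open Pool.Agent.P.MP_639dfe_co

/-- `c_6(n) ~ n² (1 + √2)^n / 16`. -/
theorem result :
    Filter.Tendsto (fun n : ℕ => (numConfig 6 n : ℝ) / ((n : ℝ) ^ 2 * (1 + √2) ^ n))
      Filter.atTop (nhds (1 / 16)) :=
  growth

end Pool.Agent.Results.MP_639dfe_co.SixGrowth
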