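import Pool.Agent.P.MP_639dfe_co.Wqo

namespace Pool.Agent.Results.MP_639dfe_co.SixWqo

open Pool.Agent.P.MP_639dfe_co

/-- The configurations with no six points in general position are well-quasi-ordered under
the subconfiguration relation. -/
theorem result (S : ℕ → Finset (ℝ × ℝ)) (hS : ∀ i, InClass 6 (S i)) :
    ∃ i j, i < j ∧ IsSubconfig (S i) (S j) :=
  pwo_six.exists_lt hS

end Pool.Agent.Results.MP_639dfe_co.SixWqo
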